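import Mathlib

/-!
Basic objects for the question on the product condition and total variation cutoff
for lazy simple random walks on vertex-transitive graphs.
-/

namespace Pool.Agent.MixCutoff

open Filter Topology

variable {V : Type} [Fintype V]

open Classical in
/-- Transition matrix `P = (I + D⁻¹ A) / 2` of the lazy simple random walk on `G`. -/
noncomputable def lazyWalk (G : SimpleGraph V) : Matrix V V ℝ :=
  (1 / 2 : ℝ) • (1 + Matrix.diagonal (fun x => ((G.degree x : ℕ) : ℝ)⁻¹) * G.adjMatrix ℝ)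

open Classical in
/-- `d(t) = max_x ‖P^t(x, ·) - π‖_TV`, where `π` is the uniform distribution and the total
variation norm is half of the `ℓ¹` norm. -/
noncomputable def tvDist (G : SimpleGraph V) (t : ℕ) : ℝ :=
  ⨆ x : V, (1 / 2 : ℝ) * ∑ y : V, |(lazyWalk G ^ t) x y - 1 / (Fintype.card V : ℝ)|

/-- Mixing time `t_mix(ε) = min {t ≥ 0 : d(t) ≤ ε}`. -/
noncomputable def tmix (G : SimpleGraph V) (ε : ℝ) : ℕ :=
  sInf {t : ℕ | tvDist G t ≤ ε}

/-- The second largest eigenvalue of `P`. For a connected graph the eigenvalue `1` of `P` is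
simple, so this is the largest eigenvalue of `P` different from `1`. -/
noncomputable def lambdaTwo (G : SimpleGraph V) : ℝ :=
  sSup {l : ℝ | l ≠ 1 ∧ ∃ f : V → ℝ, f ≠ 0 ∧ (lazyWalk G).mulVec f = l • f}

/-- Relaxation time `t_rel = 1 / (1 - λ₂)`. -/
noncomputable def trel (G : SimpleGraph V) : ℝ := 1 / (1 - lambdaTwo G)

/-- Vertex-transitivity: automorphisms act transitively on the vertices. -/
def VertexTransitive (G : SimpleGraph V) : Prop :=
  ∀ x y : V, ∃ φ : G ≃g G, φ x = y

/-- Total variation cutoff of the sequence of lazy simple random walks on `G n`. -/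
def HasCutoff {V : ℕ → Type} [∀ n, Fintype (V n)] (G : ∀ n, SimpleGraph (V n)) : Prop :=
  ∀ ε : ℝ, 0 < ε → ε < 1 →
    Tendsto (fun n => (tmix (G n) ε : ℝ) / (tmix (G n) (1 - ε) : ℝ)) atTop (𝓝 1)

end Pool.Agent.MixCutoff
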