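import Mathlib
import Pool.Agent.MixCutoff.Defs

/-!
The family of Cayley graphs on `A × H`: `(a,h)` and `(b,k)` are adjacent iff they differ and
`h = k` or `b - a ∈ L`.
-/

namespace Pool.Agent.MixCutoff

open Finset

section
variable {A H : Type} [AddCommGroup A] [AddCommGroup H]

/-- The graph on `A × H` in which distinct `(a,h)`, `(b,k)` are adjacent iff
`h = k` or `b - a ∈ L`. -/
def gr (A H : Type) [AddCommGroup A] [AddCommGroup H] (L : Finset A) (hL : ∀ a ∈ L, -a ∈ L) :
    SimpleGraph (A × H) where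
  Adj u v := u ≠ v ∧ (u.2 = v.2 ∨ v.1 - u.1 ∈ L)
  symm := ⟨by
    rintro u v ⟨h1, h2⟩
    refine ⟨h1.symm, ?_⟩
    rcases h2 with h2 | h2
    · exact Or.inl h2.symm
    · right
      have := hL _ h2
      simpa using this⟩
  loopless := ⟨by
    rintro u ⟨h1, _⟩
    exact h1 rfl⟩

variable (L : Finset A) (hL : ∀ a ∈ L, -a ∈ L)

theorem gr_adj (u v : A × H) :
    (gr A H L hL).Adj u v ↔ u ≠ v ∧ (u.2 = v.2 ∨ v.1 - u.1 ∈ L) := Iff.rfl

theorem gr_transitive [Fintype A] [Fintype H] : VertexTransitive (gr A H L hL) := by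
  intro x y
  refine ⟨⟨Equiv.addRight (y - x), ?_⟩, ?_⟩
  · intro a b
    simp [gr_adj]
  · simp

theorem gr_connected (h0 : (0 : A) ∈ L) : (gr A H L hL).Connected := by
  have key : ∀ u v : A × H, (gr A H L hL).Reachable u v := by
    intro u v
    have h1 : (gr A H L hL).Reachable u (v.1, u.2) := by
      by_cases h : u = (v.1, u.2)
      · rw [← h]
      · exact SimpleGraph.Adj.reachable ⟨h, Or.inl rfl⟩
    have h2 : (gr A H L hL).Reachable (v.1, u.2) v := by
      by_cases h : (v.1, u.2) = v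
      · rw [h]
      · exact SimpleGraph.Adj.reachable ⟨h, Or.inr (by simpa using h0)⟩
    exact h1.trans h2
  exact { preconnected := key, nonempty := ⟨(0, 0)⟩ }

end

end Pool.Agent.MixCutoff
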