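import Mathlib
import Pool.Agent.MixCutoff.Graph

/-!
Entries of the transition matrix of the graphs `gr A H L`.
-/

namespace Pool.Agent.MixCutoff

open Finset

section
variable {A H : Type} [AddCommGroup A] [AddCommGroup H] [Fintype A] [Fintype H]
  [DecidableEq A] [DecidableEq H]
variable (L : Finset A) (hL : ∀ a ∈ L, -a ∈ L)

open Classical in
theorem lazyWalk_apply_classical {V : Type} [Fintype V] (G : SimpleGraph V) (u v : V) :
    lazyWalk G u v = (1 / 2 : ℝ) * ((if u = v then 1 else 0) +
      ((G.degree u : ℕ) : ℝ)⁻¹ * (if G.Adj u v then 1 else 0)) := by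
  unfold lazyWalk
  rw [Matrix.smul_apply, Matrix.add_apply, Matrix.diagonal_mul, SimpleGraph.adjMatrix_apply,
    Matrix.one_apply, smul_eq_mul]

theorem lazyWalk_apply {V : Type} [Fintype V] [i1 : DecidableEq V] (G : SimpleGraph V)
    [i2 : DecidableRel G.Adj] (u v : V) :
    lazyWalk G u v = (1 / 2 : ℝ) * ((if u = v then 1 else 0) +
      ((G.degree u : ℕ) : ℝ)⁻¹ * (if G.Adj u v then 1 else 0)) := by
  obtain rfl : i1 = (fun a b => Classical.propDecidable (a = b)) := Subsingleton.elim _ _
  obtain rfl : i2 = (fun a b => Classical.propDecidable (G.Adj a b)) := Subsingleton.elim _ _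
  exact lazyWalk_apply_classical G u v

theorem tvDist_eq {V : Type} [Fintype V] [i1 : DecidableEq V] (G : SimpleGraph V) (t : ℕ) :
    tvDist G t = ⨆ x : V, (1 / 2 : ℝ) * ∑ y : V,
      |(lazyWalk G ^ t) x y - 1 / (Fintype.card V : ℝ)| := by
  obtain rfl : i1 = (fun a b => Classical.propDecidable (a = b)) := Subsingleton.elim _ _
  rfl

/-- The connection set together with `0`. -/
def conn (A H : Type) [AddCommGroup A] [AddCommGroup H] [Fintype A] [Fintype H]
    [DecidableEq A] [DecidableEq H] (L : Finset A) : Finset (A × H) :=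
  Finset.univ.filter (fun s => s.2 = 0 ∨ s.1 ∈ L)

theorem zero_mem_conn : (0 : A × H) ∈ conn A H L := by
  simp [conn]

theorem sum_conn {R : Type} [AddCommGroup R] (f : A × H → R) :
    ∑ s ∈ conn A H L, f s = ∑ a : A, f (a, 0) + ∑ a ∈ L, (∑ h : H, f (a, h) - f (a, 0)) := by
  have h1 : ∀ s : A × H, (if (s.2 = 0 ∨ s.1 ∈ L) then f s else 0) =
      (if s.2 = 0 then f s else 0) + ((if s.1 ∈ L then f s else 0) -
        (if s.1 ∈ L then (if s.2 = 0 then f s else 0) else 0)) := by
    intro s
    by_cases h2 : s.2 = 0 <;> by_cases h3 : s.1 ∈ L <;> simp [h2, h3]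
  rw [conn, Finset.sum_filter, Finset.sum_congr rfl (fun s _ => h1 s), Finset.sum_add_distrib,
    Finset.sum_sub_distrib]
  simp only [Fintype.sum_prod_type]
  have e1 : ∀ a : A, ∑ h : H, (if a ∈ L then f (a, h) else 0) =
      if a ∈ L then ∑ h : H, f (a, h) else 0 := by
    intro a; by_cases ha : a ∈ L <;> simp [ha]
  have e2 : ∀ a : A, ∑ h : H, (if a ∈ L then (if h = 0 then f (a, h) else 0) else 0) =
      if a ∈ L then f (a, 0) else 0 := by
    intro a; by_cases ha : a ∈ L <;> simp [ha]
  have e3 : ∀ a : A, ∑ h : H, (if h = 0 then f (a, h) else 0) = f (a, 0) := by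
    intro a; simp
  rw [Finset.sum_congr rfl (fun a _ => e1 a), Finset.sum_congr rfl (fun a _ => e2 a),
    Finset.sum_congr rfl (fun a _ => e3 a), Finset.sum_sub_distrib,
    Finset.sum_ite_mem, Finset.sum_ite_mem, Finset.univ_inter]

theorem card_conn : ((conn A H L).card : ℤ) = Fintype.card A + L.card * (Fintype.card H - 1) := by
  have := sum_conn (A := A) (H := H) L (fun _ => (1 : ℤ))
  simp at this
  rw [this]
  ring

/-- The degree, as a real number. -/
noncomputable def Dg (A H : Type) [Fintype A] [Fintype H] (L : Finset A) : ℝ :=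
  Fintype.card A + L.card * (Fintype.card H - 1) - 1

theorem card_conn_real : ((conn A H L).card : ℝ) = Dg A H L + 1 := by
  have h := card_conn (A := A) (H := H) L
  have h2 : (((conn A H L).card : ℤ) : ℝ) =
      ((Fintype.card A + L.card * (Fintype.card H - 1) : ℤ) : ℝ) := by rw [h]
  push_cast at h2
  rw [h2, Dg]
  ring

theorem gr_degree (x : A × H) [Fintype ((gr A H L hL).neighborSet x)] :
    (((gr A H L hL).degree x : ℕ) : ℝ) = Dg A H L := by
  have h1 : (gr A H L hL).neighborFinset x = ((conn A H L).erase 0).image (fun s => x + s) := by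
    ext v
    simp only [SimpleGraph.mem_neighborFinset, gr_adj, Finset.mem_image, Finset.mem_erase, conn,
      Finset.mem_filter, Finset.mem_univ, true_and]
    constructor
    · rintro ⟨h1, h2⟩
      refine ⟨v - x, ⟨?_, ?_⟩, by abel⟩
      · intro h; exact h1 (sub_eq_zero.mp h).symm
      · rcases h2 with h2 | h2
        · left; simp [h2]
        · right; simpa using h2
    · rintro ⟨s, ⟨h1, h2⟩, rfl⟩
      refine ⟨by simpa [eq_comm] using h1, ?_⟩
      rcases h2 with h2 | h2
      · left; simp [h2]
      · right; simpa using h2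
  rw [← SimpleGraph.card_neighborFinset_eq_degree, h1,
    Finset.card_image_of_injective _ (add_right_injective x)]
  have h3 : ((conn A H L).erase 0).card + 1 = (conn A H L).card :=
    Finset.card_erase_add_one (zero_mem_conn L)
  have h4 : (((conn A H L).erase 0).card : ℝ) + 1 = Dg A H L + 1 := by
    rw [← card_conn_real L, ← h3]; push_cast; ring
  linarith

/-- One-step distribution of the lazy walk. -/
noncomputable def pstep (s : A × H) : ℝ :=
  if s = 0 then 1 / 2 else if (s.2 = 0 ∨ s.1 ∈ L) then 1 / (2 * Dg A H L) else 0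

theorem lazyWalk_gr (u v : A × H) : lazyWalk (gr A H L hL) u v = pstep L (v - u) := by
  classical
  rw [lazyWalk_apply, gr_degree]
  unfold pstep
  by_cases h : u = v
  · subst h
    simp
  · have h' : ¬ (v - u = 0) := fun h' => h (sub_eq_zero.mp h').symm
    rw [if_neg h, if_neg h']
    by_cases h2 : (u.2 = v.2 ∨ v.1 - u.1 ∈ L)
    · have h3 : ((v - u).2 = 0 ∨ (v - u).1 ∈ L) := by
        rcases h2 with h2 | h2
        · left; simp [h2]
        · right; simpa using h2
      rw [if_pos h3, if_pos ((gr_adj L hL u v).mpr ⟨h, h2⟩)]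
      simp only [zero_add, mul_one]
      rw [← one_div, one_div_mul_one_div]
    · have h3 : ¬ ((v - u).2 = 0 ∨ (v - u).1 ∈ L) := by
        intro h3
        apply h2
        rcases h3 with h3 | h3
        · left
          have : v.2 - u.2 = 0 := h3
          exact (sub_eq_zero.mp this).symm
        · right; exact h3
      have h4 : ¬ (gr A H L hL).Adj u v := fun h4 => h2 ((gr_adj L hL u v).mp h4).2
      rw [if_neg h3, if_neg h4]
      simp

/-- Summing the one-step distribution against a function. -/
theorem sum_pstep {R : Type} [Field R] [CharZero R] [Algebra ℝ R] (f : A × H → R) :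
    ∑ s : A × H, (algebraMap ℝ R (pstep L s)) * f s =
      (algebraMap ℝ R (1 / 2 - 1 / (2 * Dg A H L))) * f 0 +
      (algebraMap ℝ R (1 / (2 * Dg A H L))) * ∑ s ∈ conn A H L, f s := by
  have h1 : ∀ s : A × H, (algebraMap ℝ R (pstep L s)) * f s =
      (if s = 0 then (algebraMap ℝ R (1 / 2 - 1 / (2 * Dg A H L))) * f s else 0) +
      (if (s.2 = 0 ∨ s.1 ∈ L) then (algebraMap ℝ R (1 / (2 * Dg A H L))) * f s else 0) := by
    intro s
    by_cases h : s = 0
    · subst h
      simp [pstep]
      ring
    · by_cases h2 : (s.2 = 0 ∨ s.1 ∈ L)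
      · simp [pstep, h, h2]
      · simp [pstep, h, h2]
  rw [Finset.sum_congr rfl (fun s _ => h1 s), Finset.sum_add_distrib, Finset.sum_ite_eq',
    if_pos (Finset.mem_univ _), conn, Finset.sum_filter, Finset.mul_sum]
  congr 1
  apply Finset.sum_congr rfl
  intro s _
  split_ifs <;> simp

end

end Pool.Agent.MixCutoff
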