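import Mathlib

/-!
The union of the lines through the points of the moment curve in `F_q^n` and its
character sums.
-/

namespace Pool.Agent.MixCutoff

open Finset

section
variable {F : Type} [Field F] [Fintype F] [DecidableEq F] {n : ℕ}

/-- Points of the moment curve. -/
def vv (n : ℕ) {F : Type} [Field F] (x : F) : Fin n → F := fun i => x ^ (i : ℕ)

/-- Union of the lines spanned by the points of the moment curve. -/
def lines (n : ℕ) (F : Type) [Field F] [Fintype F] [DecidableEq F] : Finset (Fin n → F) :=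
  (Finset.univ : Finset (F × F)).image (fun p => p.1 • vv n p.2)

theorem zero_mem_lines : (0 : Fin n → F) ∈ lines n F := by
  rw [lines, Finset.mem_image]
  exact ⟨(0, 0), Finset.mem_univ _, by simp⟩

theorem neg_mem_lines : ∀ a ∈ lines n F, -a ∈ lines n F := by
  intro a ha
  rw [lines, Finset.mem_image] at ha ⊢
  obtain ⟨p, -, rfl⟩ := ha
  exact ⟨(-p.1, p.2), Finset.mem_univ _, by simp⟩

theorem lines_inj (hn : 2 ≤ n) :
    Set.InjOn (fun p : F × F => p.1 • vv n p.2)
      ((Finset.univ.filter (fun p : F × F => p.1 ≠ 0) : Finset (F × F)) : Set (F × F)) := by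
  rintro ⟨c, x⟩ hc ⟨d, y⟩ hd h
  have hc' : c ≠ 0 := by simpa using hc
  have h0 := congrFun h ⟨0, by omega⟩
  have h1 := congrFun h ⟨1, by omega⟩
  simp only [vv, Pi.smul_apply, smul_eq_mul, pow_zero, mul_one, pow_one] at h0 h1
  subst h0
  have h2 := mul_left_cancel₀ hc' h1
  rw [h2]

theorem lines_eq : lines n F =
    insert 0 ((Finset.univ.filter (fun p : F × F => p.1 ≠ 0)).image
      (fun p => p.1 • vv n p.2)) := by
  ext a
  simp only [lines, Finset.mem_image, Finset.mem_insert, Finset.mem_filter, Finset.mem_univ,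
    true_and]
  constructor
  · rintro ⟨p, rfl⟩
    by_cases h : p.1 = 0
    · left; simp [h]
    · right; exact ⟨p, h, rfl⟩
  · rintro (rfl | ⟨p, _, rfl⟩)
    · exact ⟨(0, 0), by simp⟩
    · exact ⟨p, rfl⟩

theorem zero_notMem_im (hn : 2 ≤ n) :
    (0 : Fin n → F) ∉ ((Finset.univ.filter (fun p : F × F => p.1 ≠ 0)).image
      (fun p => p.1 • vv n p.2)) := by
  simp only [Finset.mem_image, Finset.mem_filter, Finset.mem_univ, true_and]
  rintro ⟨p, hp, h⟩
  have h0 := congrFun h ⟨0, by omega⟩
  simp [vv] at h0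
  exact hp h0

theorem sum_lines {R : Type} [AddCommGroup R] (hn : 2 ≤ n) (f : (Fin n → F) → R) :
    ∑ a ∈ lines n F, f a = f 0 + ∑ x : F, (∑ c : F, f (c • vv n x) - f 0) := by
  rw [lines_eq, Finset.sum_insert (zero_notMem_im hn), Finset.sum_image (lines_inj hn)]
  congr 1
  rw [Finset.sum_filter, Fintype.sum_prod_type, Finset.sum_comm]
  apply Finset.sum_congr rfl
  intro x _
  have h1 : ∀ c : F, (if (c, x).1 ≠ 0 then f ((c, x).1 • vv n (c, x).2) else 0) =
      f (c • vv n x) - (if c = 0 then f (c • vv n x) else 0) := by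
    intro c
    by_cases h : c = 0 <;> simp [h]
  rw [Finset.sum_congr rfl (fun c _ => h1 c), Finset.sum_sub_distrib, Finset.sum_ite_eq',
    if_pos (Finset.mem_univ _), zero_smul]

theorem card_lines (hn : 2 ≤ n) :
    ((lines n F).card : ℝ) = (Fintype.card F : ℝ) ^ 2 - Fintype.card F + 1 := by
  have := sum_lines (F := F) hn (fun _ => (1 : ℝ))
  simp only [Finset.sum_const, Finset.card_univ, nsmul_eq_mul, mul_one] at this
  rw [this]
  ring

theorem char_trivial_of_many (α : AddChar (Fin n → F) ℂ)
    (h : n ≤ (Finset.univ.filter (fun x : F => ∀ c : F, α (c • vv n x) = 1)).card) :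
    α = 0 := by
  classical
  set S := Finset.univ.filter (fun x : F => ∀ c : F, α (c • vv n x) = 1) with hS
  let e : Fin n → F := fun i => (S.equivFin.symm (Fin.castLE h i)).1
  have he : Function.Injective e := by
    intro i j hij
    have h1 := Subtype.ext hij
    have h2 := S.equivFin.symm.injective h1
    exact Fin.castLE_injective h h2
  have heS : ∀ i, ∀ c : F, α (c • vv n (e i)) = 1 := by
    intro i
    have : e i ∈ S := (S.equivFin.symm (Fin.castLE h i)).2
    rw [hS, Finset.mem_filter] at this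
    exact this.2
  have hdet : (Matrix.vandermonde e).det ≠ 0 := Matrix.det_vandermonde_ne_zero_iff.mpr he
  have hunit : IsUnit (Matrix.vandermonde e).det := isUnit_iff_ne_zero.mpr hdet
  rw [AddChar.eq_zero_iff]
  intro a
  have h3 : Matrix.vecMul (Matrix.vecMul a (Matrix.vandermonde e)⁻¹) (Matrix.vandermonde e) = a := by
    rw [Matrix.vecMul_vecMul, Matrix.nonsing_inv_mul _ hunit, Matrix.vecMul_one]
  set c := Matrix.vecMul a (Matrix.vandermonde e)⁻¹ with hc
  have h4 : a = ∑ i, c i • vv n (e i) := by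
    rw [← h3, Matrix.vecMul_eq_sum]
    apply Finset.sum_congr rfl
    intro i _
    congr 1
  have h5 : ∀ T : Finset (Fin n), α (∑ i ∈ T, c i • vv n (e i)) = 1 := by
    intro T
    induction T using Finset.induction_on with
    | empty => simp
    | insert i T hi ih => rw [Finset.sum_insert hi, AddChar.map_add_eq_mul, ih, heS i, one_mul]
  rw [h4]
  exact h5 _

theorem char_line_sum (α : AddChar (Fin n → F) ℂ) (x : F) :
    ∑ c : F, α (c • vv n x) = if (∀ c : F, α (c • vv n x) = 1) then (Fintype.card F : ℂ)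
      else 0 := by
  classical
  let g : F →+ (Fin n → F) := (LinearMap.toSpanSingleton F (Fin n → F) (vv n x)).toAddMonoidHom
  have hg : ∀ c, g c = c • vv n x := fun c => rfl
  have h1 := AddChar.sum_eq_ite (α.compAddMonoidHom g)
  have h2 : ∀ c, (α.compAddMonoidHom g) c = α (c • vv n x) := fun c => rfl
  simp_rw [h2] at h1
  rw [h1]
  congr 1
  rw [AddChar.eq_zero_iff]
  simp only [h2]

theorem char_lines_bound (hn : 2 ≤ n) (α : AddChar (Fin n → F) ℂ) (hα : α ≠ 0) :
    ‖∑ a ∈ lines n F, α a‖ ≤ (Fintype.card F : ℝ) * n := by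
  classical
  rw [sum_lines hn, AddChar.map_zero_eq_one, Finset.sum_sub_distrib]
  simp_rw [char_line_sum]
  rw [← Finset.sum_filter]
  simp only [Finset.sum_const, Finset.card_univ, nsmul_eq_mul, mul_one]
  set k := (Finset.univ.filter (fun x : F => ∀ c : F, α (c • vv n x) = 1)).card with hk
  have hkn : k + 1 ≤ n := by
    by_contra hcon
    apply hα
    apply char_trivial_of_many
    rw [← hk]
    omega
  have hF : (1 : ℝ) ≤ Fintype.card F := by
    have : 0 < Fintype.card F := Fintype.card_pos_iff.mpr ⟨0⟩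
    exact_mod_cast this
  have h1 : (1 : ℂ) + ((k : ℂ) * (Fintype.card F : ℂ) - (Fintype.card F : ℂ)) =
      ((1 + ((k : ℝ) * (Fintype.card F : ℝ) - (Fintype.card F : ℝ)) : ℝ) : ℂ) := by
    push_cast; ring
  rw [h1, Complex.norm_real, Real.norm_eq_abs, abs_le]
  have hk0 : (0 : ℝ) ≤ k := Nat.cast_nonneg _
  have hkn' : (k : ℝ) + 1 ≤ n := by exact_mod_cast hkn
  constructor
  · nlinarith
  · nlinarith

end

end Pool.Agent.MixCutoff
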