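import Mathlib
import Pool.Agent.MixCutoff.Entries

/-!
Eigenvalues of the transition matrix via additive characters.
-/

namespace Pool.Agent.MixCutoff

open Finset

theorem exists_char {V : Type} [AddCommGroup V] [Fintype V] (f : V → ℂ) (hf : f ≠ 0) :
    ∃ χ : AddChar V ℂ, ∑ v, f v * χ v ≠ 0 := by
  classical
  by_contra hcon
  push Not at hcon
  apply hf
  funext w
  have h1 : ∑ χ : AddChar V ℂ, (∑ v, f v * χ v) * χ (-w) = 0 := by
    apply Finset.sum_eq_zero
    intro χ _
    rw [hcon χ, zero_mul]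
  have h2 : ∑ χ : AddChar V ℂ, (∑ v, f v * χ v) * χ (-w) =
      ∑ v, f v * ∑ χ : AddChar V ℂ, χ (v - w) := by
    simp_rw [Finset.sum_mul, Finset.mul_sum]
    rw [Finset.sum_comm]
    apply Finset.sum_congr rfl
    intro v _
    apply Finset.sum_congr rfl
    intro χ _
    rw [sub_eq_add_neg, AddChar.map_add_eq_mul]
    ring
  rw [h2] at h1
  have h3 : ∀ v : V, f v * ∑ χ : AddChar V ℂ, χ (v - w) =
      if v = w then f v * (Fintype.card V : ℂ) else 0 := by
    intro v
    rw [AddChar.sum_apply_eq_ite]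
    by_cases h : v = w
    · simp [h]
    · rw [if_neg (fun h' => h (sub_eq_zero.mp h')), if_neg h, mul_zero]
  rw [Finset.sum_congr rfl (fun v _ => h3 v), Finset.sum_ite_eq' Finset.univ w,
    if_pos (Finset.mem_univ w)] at h1
  have h4 : (Fintype.card V : ℂ) ≠ 0 := by
    have : Nonempty V := ⟨w⟩
    exact_mod_cast Fintype.card_ne_zero
  rcases mul_eq_zero.mp h1 with h | h
  · simpa using h
  · exact absurd h h4

section
variable {A H : Type} [AddCommGroup A] [AddCommGroup H] [Fintype A] [Fintype H]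
  [DecidableEq A] [DecidableEq H]
variable (L : Finset A) (hL : ∀ a ∈ L, -a ∈ L)

theorem eigen_char (f : A × H → ℝ) (hf : f ≠ 0) (l : ℝ)
    (hfl : (lazyWalk (gr A H L hL)).mulVec f = l • f) :
    ∃ χ : AddChar (A × H) ℂ, ∑ s : A × H, ((pstep L s : ℝ) : ℂ) * χ s = (l : ℂ) := by
  classical
  obtain ⟨χ, hχ⟩ := exists_char (fun v => ((f v : ℝ) : ℂ)) (by
    intro h
    apply hf
    funext v
    have := congrFun h v
    simpa using this)
  refine ⟨χ⁻¹, ?_⟩
  have h1 : ∀ u, ∑ s : A × H, pstep L s * f (u + s) = l * f u := by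
    intro u
    have := congrFun hfl u
    rw [Matrix.mulVec, dotProduct] at this
    simp only [Pi.smul_apply, smul_eq_mul] at this
    rw [← this]
    rw [← Equiv.sum_comp (Equiv.addLeft u) (fun v => lazyWalk (gr A H L hL) u v * f v)]
    apply Finset.sum_congr rfl
    intro s _
    rw [lazyWalk_gr]
    simp
  have h2 : ∑ u : A × H, (∑ s : A × H, ((pstep L s : ℝ) : ℂ) * ((f (u + s) : ℝ) : ℂ)) * χ u =
      (l : ℂ) * ∑ u : A × H, ((f u : ℝ) : ℂ) * χ u := by
    rw [Finset.mul_sum]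
    apply Finset.sum_congr rfl
    intro u _
    have := h1 u
    have h3 : (∑ s : A × H, ((pstep L s : ℝ) : ℂ) * ((f (u + s) : ℝ) : ℂ)) =
        ((l * f u : ℝ) : ℂ) := by
      rw [← this]; push_cast; rfl
    rw [h3]; push_cast; ring
  have h3 : ∑ u : A × H, (∑ s : A × H, ((pstep L s : ℝ) : ℂ) * ((f (u + s) : ℝ) : ℂ)) * χ u =
      (∑ s : A × H, ((pstep L s : ℝ) : ℂ) * χ⁻¹ s) * ∑ u : A × H, ((f u : ℝ) : ℂ) * χ u := by
    simp_rw [Finset.sum_mul]
    rw [Finset.sum_comm]
    apply Finset.sum_congr rfl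
    intro s _
    rw [Finset.mul_sum]
    rw [← Equiv.sum_comp (Equiv.addRight s) (fun u => ((pstep L s : ℝ) : ℂ) * χ⁻¹ s *
      (((f u : ℝ) : ℂ) * χ u))]
    apply Finset.sum_congr rfl
    intro u _
    simp only [Equiv.coe_addRight, AddChar.inv_apply]
    have h4 : χ (u + s) * χ (-s) = χ u := by
      rw [← AddChar.map_add_eq_mul]; simp
    rw [← h4]
    ring
  rw [h3] at h2
  exact mul_right_cancel₀ hχ h2

theorem conn_char (χ : AddChar (A × H) ℂ) :
    ∑ s ∈ conn A H L, χ s = ∑ a : A, χ (a, 0) +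
      (∑ a ∈ L, χ (a, 0)) * (∑ h : H, χ (0, h) - 1) := by
  rw [sum_conn, Finset.sum_mul]
  congr 1
  apply Finset.sum_congr rfl
  intro a _
  have : ∀ h : H, χ (a, h) = χ (a, 0) * χ (0, h) := by
    intro h
    rw [← AddChar.map_add_eq_mul]; simp
  rw [Finset.sum_congr rfl (fun h _ => this h), ← Finset.mul_sum]
  ring

theorem sum_char_h_bound (χ : AddChar (A × H) ℂ) :
    ‖∑ h : H, χ (0, h) - 1‖ ≤ (Fintype.card H : ℝ) - 1 := by
  classical
  have h1 : ∑ h : H, χ ((0 : A), h) - 1 = ∑ h ∈ Finset.univ.erase (0 : H), χ ((0 : A), h) := by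
    rw [← Finset.add_sum_erase _ _ (Finset.mem_univ (0 : H))]
    have : χ ((0 : A), (0 : H)) = 1 := AddChar.map_zero_eq_one χ
    rw [this]; ring
  rw [h1]
  refine (norm_sum_le _ _).trans ?_
  have h2 : ∀ h ∈ Finset.univ.erase (0 : H), ‖χ ((0 : A), h)‖ = 1 := by
    intro h _
    exact AddChar.norm_apply χ _
  rw [Finset.sum_congr rfl h2]
  have h3 : (Finset.univ.erase (0 : H)).card + 1 = Fintype.card H := by
    rw [Finset.card_erase_add_one (Finset.mem_univ _), Finset.card_univ]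
  have h4 : ((Finset.univ.erase (0 : H)).card : ℝ) + 1 = Fintype.card H := by exact_mod_cast h3
  rw [Finset.sum_const, nsmul_eq_mul, mul_one]
  linarith

/-- Bound on the eigenvalues of the walk other than `1`. -/
theorem eigen_bound (M : ℝ) (hM : 0 ≤ M)
    (hLM : ∀ α : AddChar A ℂ, α ≠ 0 → ‖∑ a ∈ L, α a‖ ≤ M)
    (hD : 0 < Dg A H L)
    (f : A × H → ℝ) (hf : f ≠ 0) (l : ℝ) (hl : l ≠ 1)
    (hfl : (lazyWalk (gr A H L hL)).mulVec f = l • f) :
    l ≤ 1 / 2 + (Fintype.card A : ℝ) / (2 * Dg A H L) ∨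
    l ≤ 1 / 2 + M * ((Fintype.card H : ℝ) - 1) / (2 * Dg A H L) := by
  classical
  obtain ⟨χ, hχ⟩ := eigen_char L hL f hf l hfl
  have h1 := sum_pstep (R := ℂ) L (fun s => χ s)
  simp only [Complex.coe_algebraMap] at h1
  rw [hχ, conn_char, AddChar.map_zero_eq_one] at h1
  set D := Dg A H L with hDdef
  let α : AddChar A ℂ := χ.compAddMonoidHom (AddMonoidHom.inl A H)
  let β : AddChar H ℂ := χ.compAddMonoidHom (AddMonoidHom.inr A H)
  have hα : ∀ a, χ (a, 0) = α a := fun a => rfl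
  have hβ : ∀ h, χ (0, h) = β h := fun h => rfl
  have hcardA : (1 : ℝ) ≤ Fintype.card A := by
    have : 0 < Fintype.card A := Fintype.card_pos_iff.mpr ⟨0⟩
    exact_mod_cast this
  have hcardH : (1 : ℝ) ≤ Fintype.card H := by
    have : 0 < Fintype.card H := Fintype.card_pos_iff.mpr ⟨0⟩
    exact_mod_cast this
  by_cases ha : α = 0
  · by_cases hb : β = 0
    · -- trivial character: eigenvalue one
      exfalso
      apply hl
      have e1 : ∀ a, χ (a, 0) = 1 := by intro a; rw [hα, ha]; simp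
      have e2 : ∀ h, χ (0, h) = 1 := by intro h; rw [hβ, hb]; simp
      simp only [e1, e2] at h1
      simp only [Finset.sum_const, Finset.card_univ, nsmul_eq_mul, mul_one] at h1
      have h2 : (l : ℂ) = (((1 / 2 - 1 / (2 * D)) * 1 + 1 / (2 * D) * ((Fintype.card A : ℝ) +
        (L.card : ℝ) * ((Fintype.card H : ℝ) - 1)) : ℝ) : ℂ) := by
        rw [h1]; push_cast; ring
      have h3 := Complex.ofReal_injective h2
      have h4 : (Fintype.card A : ℝ) + (L.card : ℝ) * ((Fintype.card H : ℝ) - 1) = D + 1 := by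
        rw [hDdef, Dg]; ring
      rw [h3, h4]
      field_simp
      ring
    · left
      have e1 : ∀ a, χ (a, 0) = 1 := by intro a; rw [hα, ha]; simp
      have e2 : ∑ h : H, χ ((0 : A), h) = 0 := by
        simp only [hβ]
        rw [AddChar.sum_eq_ite, if_neg hb]
      rw [e2] at h1
      simp only [e1] at h1
      simp only [Finset.sum_const, Finset.card_univ, nsmul_eq_mul, mul_one] at h1
      have h2 : (l : ℂ) = (((1 / 2 - 1 / (2 * D)) * 1 + 1 / (2 * D) * ((Fintype.card A : ℝ) +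
        (L.card : ℝ) * (0 - 1)) : ℝ) : ℂ) := by
        rw [h1]; push_cast; ring
      have h3 := Complex.ofReal_injective h2
      rw [h3]
      have h5 : 0 ≤ (L.card : ℝ) := Nat.cast_nonneg _
      have h6 : 0 < 1 / (2 * D) := by positivity
      have h7 : (Fintype.card A : ℝ) / (2 * D) = (1 / (2 * D)) * Fintype.card A := by ring
      rw [h7]
      nlinarith [mul_nonneg h6.le h5]
  · right
    have e1 : ∑ a : A, χ (a, (0 : H)) = 0 := by
      simp only [hα]
      rw [AddChar.sum_eq_ite, if_neg ha]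
    rw [e1, zero_add, mul_one] at h1
    have h2 : ‖((1 / (2 * D) : ℝ) : ℂ) * ((∑ a ∈ L, χ (a, (0 : H))) *
        (∑ h : H, χ ((0 : A), h) - 1))‖ ≤ (1 / (2 * D)) * (M * ((Fintype.card H : ℝ) - 1)) := by
      rw [norm_mul, norm_mul, Complex.norm_real, Real.norm_of_nonneg (by positivity)]
      apply mul_le_mul_of_nonneg_left _ (by positivity)
      apply mul_le_mul (hLM α ha) (sum_char_h_bound χ) (norm_nonneg _) hM
    have h3 : l = (1 / 2 - 1 / (2 * D)) + (((1 / (2 * D) : ℝ) : ℂ) * ((∑ a ∈ L, χ (a, (0 : H))) *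
        (∑ h : H, χ ((0 : A), h) - 1))).re := by
      have := congrArg Complex.re h1
      rw [Complex.add_re, Complex.ofReal_re, Complex.ofReal_re] at this
      exact this
    have h4 := (Complex.re_le_norm (((1 / (2 * D) : ℝ) : ℂ) * ((∑ a ∈ L, χ (a, (0 : H))) *
        (∑ h : H, χ ((0 : A), h) - 1)))).trans h2
    have h6 : 0 < 1 / (2 * D) := by positivity
    have h7 : M * ((Fintype.card H : ℝ) - 1) / (2 * D) =
      (1 / (2 * D)) * (M * ((Fintype.card H : ℝ) - 1)) := by ring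
    rw [h7]
    linarith

end

end Pool.Agent.MixCutoff
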