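import Mathlib
import Pool.Agent.MixCutoff.Entries

/-!
Upper and lower bounds on the total variation distance.
-/

namespace Pool.Agent.MixCutoff

open Finset
open scoped Pointwise

theorem half_l1_ge {V : Type} [Fintype V] [DecidableEq V] (p : V → ℝ) (hp : ∑ v, p v = 1)
    (B : Finset V) (hV : 0 < Fintype.card V) :
    ∑ v ∈ B, p v - (B.card : ℝ) / Fintype.card V ≤
      (1 / 2 : ℝ) * ∑ v, |p v - 1 / (Fintype.card V : ℝ)| := by
  have hc : (Fintype.card V : ℝ) ≠ 0 := by positivity
  have h0 : ∑ v, (p v - 1 / (Fintype.card V : ℝ)) = 0 := by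
    rw [Finset.sum_sub_distrib, hp]
    simp [hc]
  have h1 : ∑ v ∈ B, (p v - 1 / (Fintype.card V : ℝ)) +
      ∑ v ∈ Bᶜ, (p v - 1 / (Fintype.card V : ℝ)) = 0 := by
    rw [Finset.sum_add_sum_compl, h0]
  have h2 : ∑ v ∈ B, |p v - 1 / (Fintype.card V : ℝ)| +
      ∑ v ∈ Bᶜ, |p v - 1 / (Fintype.card V : ℝ)| = ∑ v, |p v - 1 / (Fintype.card V : ℝ)| :=
    Finset.sum_add_sum_compl _ _
  have h3 : ∑ v ∈ B, (p v - 1 / (Fintype.card V : ℝ)) ≤
      ∑ v ∈ B, |p v - 1 / (Fintype.card V : ℝ)| := Finset.sum_le_sum (fun v _ => le_abs_self _)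
  have h4 : -∑ v ∈ Bᶜ, (p v - 1 / (Fintype.card V : ℝ)) ≤
      ∑ v ∈ Bᶜ, |p v - 1 / (Fintype.card V : ℝ)| := by
    rw [← Finset.sum_neg_distrib]
    exact Finset.sum_le_sum (fun v _ => neg_le_abs _)
  have h5 : ∑ v ∈ B, (p v - 1 / (Fintype.card V : ℝ)) =
      ∑ v ∈ B, p v - (B.card : ℝ) / Fintype.card V := by
    rw [Finset.sum_sub_distrib]
    simp [div_eq_mul_inv]
  rw [← h5, ← h2]
  linarith

theorem rowsum_mul {V : Type} [Fintype V] (M N : Matrix V V ℝ) (c d : ℝ) (hc : 0 ≤ d)
    (hM : ∀ i, ∑ j, |M i j| ≤ c) (hN : ∀ i, ∑ j, |N i j| ≤ d) (i : V) :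
    ∑ j, |(M * N) i j| ≤ c * d := by
  calc ∑ j, |(M * N) i j| ≤ ∑ j, ∑ k, |M i k| * |N k j| := by
        apply Finset.sum_le_sum
        intro j _
        rw [Matrix.mul_apply]
        refine (Finset.abs_sum_le_sum_abs _ _).trans (le_of_eq ?_)
        exact Finset.sum_congr rfl (fun k _ => abs_mul _ _)
    _ = ∑ k, |M i k| * ∑ j, |N k j| := by
        rw [Finset.sum_comm]
        exact Finset.sum_congr rfl (fun k _ => (Finset.mul_sum _ _ _).symm)
    _ ≤ ∑ k, |M i k| * d := by
        apply Finset.sum_le_sum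
        intro k _
        exact mul_le_mul_of_nonneg_left (hN k) (abs_nonneg _)
    _ = (∑ k, |M i k|) * d := by rw [Finset.sum_mul]
    _ ≤ c * d := mul_le_mul_of_nonneg_right (hM i) hc

section
variable {A H : Type} [AddCommGroup A] [AddCommGroup H] [Fintype A] [Fintype H]
  [DecidableEq A] [DecidableEq H]
variable (L : Finset A) (hL : ∀ a ∈ L, -a ∈ L)

theorem card_pos_real (X : Type) [AddCommGroup X] [Fintype X] : (1 : ℝ) ≤ Fintype.card X := by
  have : 0 < Fintype.card X := Fintype.card_pos_iff.mpr ⟨0⟩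
  exact_mod_cast this

theorem pstep_nonneg (hD : 0 < Dg A H L) (s : A × H) : 0 ≤ pstep L s := by
  unfold pstep
  split_ifs <;> positivity

theorem sum_pstep_real (f : A × H → ℝ) :
    ∑ s : A × H, pstep L s * f s =
      (1 / 2 - 1 / (2 * Dg A H L)) * f 0 + 1 / (2 * Dg A H L) * ∑ s ∈ conn A H L, f s := by
  have := sum_pstep (R := ℝ) L f
  simpa using this

theorem sum_pstep_one (hD : 0 < Dg A H L) : ∑ s : A × H, pstep L s = 1 := by
  have h := sum_pstep_real (H := H) L (fun _ => (1 : ℝ))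
  simp only [mul_one, Finset.sum_const, nsmul_eq_mul, card_conn_real] at h
  rw [h]
  field_simp
  ring

theorem row_sum_one (hD : 0 < Dg A H L) (u : A × H) :
    ∑ v, lazyWalk (gr A H L hL) u v = 1 := by
  rw [← Equiv.sum_comp (Equiv.addLeft u) (fun v => lazyWalk (gr A H L hL) u v)]
  rw [← sum_pstep_one L hD]
  apply Finset.sum_congr rfl
  intro s _
  rw [lazyWalk_gr]
  simp

theorem lazy_nonneg (hD : 0 < Dg A H L) (u v : A × H) :
    0 ≤ lazyWalk (gr A H L hL) u v := by
  rw [lazyWalk_gr]; exact pstep_nonneg L hD _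

theorem pow_row (hD : 0 < Dg A H L) (t : ℕ) :
    (∀ u v, 0 ≤ (lazyWalk (gr A H L hL) ^ t) u v) ∧
    (∀ u, ∑ v, (lazyWalk (gr A H L hL) ^ t) u v = 1) := by
  induction t with
  | zero =>
    constructor
    · intro u v
      rw [pow_zero, Matrix.one_apply]
      split_ifs <;> norm_num
    · intro u
      simp [Matrix.one_apply]
  | succ t ih =>
    constructor
    · intro u v
      rw [pow_succ', Matrix.mul_apply]
      exact Finset.sum_nonneg (fun w _ => mul_nonneg (lazy_nonneg L hL hD u w) (ih.1 w v))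
    · intro u
      simp_rw [pow_succ', Matrix.mul_apply]
      rw [Finset.sum_comm]
      simp_rw [← Finset.mul_sum, ih.2, mul_one]
      exact row_sum_one L hL hD u

/-- The probability of one step in `L × H`. -/
theorem stay_one (h0 : (0 : A) ∈ L) (hD : 0 < Dg A H L) :
    ∑ s : A × H, pstep L s * (if s.1 ∈ L then 1 else 0) =
      1 - ((Fintype.card A : ℝ) - L.card) / (2 * Dg A H L) := by
  rw [sum_pstep_real, sum_conn]
  simp only [Prod.fst_zero, h0, if_true]
  have e1 : ∑ a : A, (if (a, (0 : H)).1 ∈ L then (1 : ℝ) else 0) = L.card := by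
    simp
  have e2 : ∑ a ∈ L, (∑ h : H, (if (a, h).1 ∈ L then (1 : ℝ) else 0) -
      (if (a, (0 : H)).1 ∈ L then (1 : ℝ) else 0)) = L.card * (Fintype.card H - 1) := by
    rw [Finset.sum_congr rfl (g := fun _ => (Fintype.card H : ℝ) - 1)]
    · rw [Finset.sum_const, nsmul_eq_mul]
    · intro a ha
      simp [ha]
  rw [e1, e2]
  have h4 : (L.card : ℝ) + (L.card : ℝ) * ((Fintype.card H : ℝ) - 1) =
      Dg A H L + 1 - (Fintype.card A - L.card) := by
    rw [Dg]; ring
  rw [h4]
  field_simp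
  ring

theorem stay_pow (h0 : (0 : A) ∈ L) (hD : 0 < Dg A H L)
    (hc : 0 ≤ 1 - ((Fintype.card A : ℝ) - L.card) / (2 * Dg A H L)) (t : ℕ) :
    ∀ u : A × H, (1 - ((Fintype.card A : ℝ) - L.card) / (2 * Dg A H L)) ^ t ≤
      ∑ v, (lazyWalk (gr A H L hL) ^ t) u v * (if v.1 - u.1 ∈ t • L then 1 else 0) := by
  induction t with
  | zero =>
    intro u
    rw [pow_zero, pow_zero]
    have h1 : (1 : ℝ) = (1 : Matrix (A × H) (A × H) ℝ) u u *
        (if u.1 - u.1 ∈ (0 : ℕ) • L then 1 else 0) := by simp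
    refine h1.le.trans ?_
    refine Finset.single_le_sum (f := fun v => (1 : Matrix (A × H) (A × H) ℝ) u v *
        (if v.1 - u.1 ∈ (0 : ℕ) • L then 1 else 0)) ?_ (Finset.mem_univ u)
    intro v _
    simp only [Matrix.one_apply]
    split_ifs <;> norm_num
  | succ t ih =>
    intro u
    set c := 1 - ((Fintype.card A : ℝ) - L.card) / (2 * Dg A H L) with hcdef
    have h1 : ∑ v, (lazyWalk (gr A H L hL) ^ (t + 1)) u v *
        (if v.1 - u.1 ∈ (t + 1) • L then (1 : ℝ) else 0) =
        ∑ w, lazyWalk (gr A H L hL) u w * ∑ v, (lazyWalk (gr A H L hL) ^ t) w v *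
          (if v.1 - u.1 ∈ (t + 1) • L then (1 : ℝ) else 0) := by
      simp_rw [pow_succ' (lazyWalk (gr A H L hL)) t, Matrix.mul_apply, Finset.sum_mul,
        Finset.mul_sum]
      rw [Finset.sum_comm]
      apply Finset.sum_congr rfl
      intro w _
      apply Finset.sum_congr rfl
      intro v _
      ring
    have h2 : ∀ w : A × H, lazyWalk (gr A H L hL) u w * (if w.1 - u.1 ∈ L then 1 else 0) *
        c ^ t ≤ lazyWalk (gr A H L hL) u w * ∑ v, (lazyWalk (gr A H L hL) ^ t) w v *
          (if v.1 - u.1 ∈ (t + 1) • L then (1 : ℝ) else 0) := by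
      intro w
      rw [mul_assoc]
      apply mul_le_mul_of_nonneg_left _ (lazy_nonneg L hL hD u w)
      by_cases hw : w.1 - u.1 ∈ L
      · rw [if_pos hw, one_mul]
        refine (ih w).trans ?_
        apply Finset.sum_le_sum
        intro v _
        apply mul_le_mul_of_nonneg_left _ ((pow_row L hL hD t).1 w v)
        by_cases hv : v.1 - w.1 ∈ t • L
        · have : v.1 - u.1 ∈ (t + 1) • L := by
            rw [succ_nsmul]
            have := Finset.add_mem_add hv hw
            simpa using this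
          rw [if_pos hv, if_pos this]
        · rw [if_neg hv]
          split_ifs <;> norm_num
      · rw [if_neg hw, zero_mul]
        apply Finset.sum_nonneg
        intro v _
        apply mul_nonneg ((pow_row L hL hD t).1 w v)
        split_ifs <;> norm_num
    have h3 : ∑ w : A × H, lazyWalk (gr A H L hL) u w * (if w.1 - u.1 ∈ L then 1 else 0) = c := by
      rw [← Equiv.sum_comp (Equiv.addLeft u)
        (fun w => lazyWalk (gr A H L hL) u w * (if w.1 - u.1 ∈ L then 1 else 0))]
      rw [hcdef, ← stay_one L h0 hD]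
      apply Finset.sum_congr rfl
      intro s _
      rw [lazyWalk_gr]
      simp
    rw [h1, pow_succ']
    calc c * c ^ t = (∑ w : A × H, lazyWalk (gr A H L hL) u w *
            (if w.1 - u.1 ∈ L then 1 else 0)) * c ^ t := by rw [h3]
      _ = ∑ w : A × H, lazyWalk (gr A H L hL) u w *
            (if w.1 - u.1 ∈ L then 1 else 0) * c ^ t := by rw [Finset.sum_mul]
      _ ≤ _ := Finset.sum_le_sum (fun w _ => h2 w)

/-- Lower bound on the total variation distance. -/
theorem tv_lower (h0 : (0 : A) ∈ L) (hD : 0 < Dg A H L)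
    (hc : 0 ≤ 1 - ((Fintype.card A : ℝ) - L.card) / (2 * Dg A H L)) (t : ℕ) :
    (1 - ((Fintype.card A : ℝ) - L.card) / (2 * Dg A H L)) ^ t -
      (L.card : ℝ) ^ t / Fintype.card A ≤ tvDist (gr A H L hL) t := by
  rw [tvDist_eq]
  have hcard : 0 < Fintype.card (A × H) := Fintype.card_pos_iff.mpr ⟨0⟩
  refine le_trans ?_ (le_ciSup (Set.finite_range _).bddAbove (0 : A × H))
  have h1 := half_l1_ge (fun v => (lazyWalk (gr A H L hL) ^ t) 0 v)
    ((pow_row L hL hD t).2 0) (Finset.univ.filter (fun v : A × H => v.1 ∈ t • L)) hcard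
  refine le_trans ?_ h1
  have h2 := stay_pow L hL h0 hD hc t 0
  have h3 : ∑ v, (lazyWalk (gr A H L hL) ^ t) 0 v *
      (if v.1 - (0 : A × H).1 ∈ t • L then (1 : ℝ) else 0) =
      ∑ v ∈ Finset.univ.filter (fun v : A × H => v.1 ∈ t • L),
        (lazyWalk (gr A H L hL) ^ t) 0 v := by
    rw [Finset.sum_filter]
    apply Finset.sum_congr rfl
    intro v _
    simp
  rw [h3] at h2
  have h4 : ((Finset.univ.filter (fun v : A × H => v.1 ∈ t • L)).card : ℝ) /
      Fintype.card (A × H) ≤ (L.card : ℝ) ^ t / Fintype.card A := by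
    have e1 : Finset.univ.filter (fun v : A × H => v.1 ∈ t • L) = (t • L) ×ˢ Finset.univ := by
      ext v; simp
    rw [e1, Finset.card_product, Fintype.card_prod, Finset.card_univ]
    push_cast
    have hH := card_pos_real H
    have hA := card_pos_real A
    rw [mul_div_mul_right _ _ (by positivity)]
    apply div_le_div_of_nonneg_right _ (by positivity)
    exact_mod_cast Finset.card_nsmul_le
  linarith

/-- Averaging over `A`-fibres. -/
noncomputable def Emat (A H : Type) [Fintype A] [DecidableEq H] : Matrix (A × H) (A × H) ℝ :=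
  fun u v => if u.2 = v.2 then 1 / (Fintype.card A : ℝ) else 0

/-- The rank one stationary projection. -/
noncomputable def Pimat (A H : Type) [Fintype A] [Fintype H] : Matrix (A × H) (A × H) ℝ :=
  fun _ _ => 1 / (Fintype.card (A × H) : ℝ)

theorem fiber_sum_zero (hD : 0 < Dg A H L) :
    ∑ a : A, pstep L (a, (0 : H)) = 1 / 2 + ((Fintype.card A : ℝ) - 1) / (2 * Dg A H L) := by
  have h1 : ∀ a : A, pstep L (a, (0 : H)) = (if a = 0 then 1 / 2 - 1 / (2 * Dg A H L) else 0) +
      1 / (2 * Dg A H L) := by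
    intro a
    by_cases h : a = 0
    · subst h
      have : ((0 : A), (0 : H)) = 0 := rfl
      simp [pstep, this]
    · have : ¬ ((a, (0 : H)) = 0) := by
        intro h'; exact h (congrArg Prod.fst h')
      simp [pstep, this, h]
  rw [Finset.sum_congr rfl (fun a _ => h1 a), Finset.sum_add_distrib, Finset.sum_ite_eq',
    if_pos (Finset.mem_univ _)]
  rw [Finset.sum_const, Finset.card_univ, nsmul_eq_mul]
  field_simp
  ring

theorem fiber_sum_ne (h : H) (hh : h ≠ 0) :
    ∑ a : A, pstep L (a, h) = (L.card : ℝ) / (2 * Dg A H L) := by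
  have h1 : ∀ a : A, pstep L (a, h) = if a ∈ L then 1 / (2 * Dg A H L) else 0 := by
    intro a
    have : ¬ ((a, h) = 0) := by
      intro h'; exact hh (congrArg Prod.snd h')
    simp [pstep, this, hh]
  rw [Finset.sum_congr rfl (fun a _ => h1 a), Finset.sum_ite_mem, Finset.univ_inter,
    Finset.sum_const, nsmul_eq_mul]
  ring

theorem mul_Emat (u v : A × H) :
    (lazyWalk (gr A H L hL) * Emat A H) u v =
      (∑ a : A, pstep L (a, v.2 - u.2)) / Fintype.card A := by
  rw [Matrix.mul_apply, Fintype.sum_prod_type]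
  have h1 : ∀ a : A, ∑ h : H, lazyWalk (gr A H L hL) u (a, h) * Emat A H (a, h) v =
      pstep L (a - u.1, v.2 - u.2) * (1 / Fintype.card A) := by
    intro a
    rw [Finset.sum_eq_single v.2]
    · rw [lazyWalk_gr]; simp [Emat]; rfl
    · intro b _ hb
      simp [Emat, hb]
    · intro h; exact absurd (Finset.mem_univ _) h
  have h2 := Equiv.sum_comp (Equiv.subRight u.1) (fun a => pstep L (a, v.2 - u.2))
  simp only [Equiv.subRight_apply] at h2
  rw [Finset.sum_congr rfl (fun a _ => h1 a), ← Finset.sum_mul, h2]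
  ring

theorem Emat_mul (u v : A × H) :
    (Emat A H * lazyWalk (gr A H L hL)) u v =
      (∑ a : A, pstep L (a, v.2 - u.2)) / Fintype.card A := by
  rw [Matrix.mul_apply, Fintype.sum_prod_type]
  have h1 : ∀ a : A, ∑ h : H, Emat A H u (a, h) * lazyWalk (gr A H L hL) (a, h) v =
      pstep L (v.1 - a, v.2 - u.2) * (1 / Fintype.card A) := by
    intro a
    rw [Finset.sum_eq_single u.2]
    · rw [lazyWalk_gr]; simp [Emat]
      rw [mul_comm]; rfl
    · intro b _ hb
      have hb' : ¬ (u.2 = b) := fun h => hb h.symm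
      simp [Emat, hb']
    · intro h; exact absurd (Finset.mem_univ _) h
  have h2 := Equiv.sum_comp (Equiv.subLeft v.1) (fun a => pstep L (a, v.2 - u.2))
  simp only [Equiv.subLeft_apply] at h2
  rw [Finset.sum_congr rfl (fun a _ => h1 a), ← Finset.sum_mul, h2]
  ring

theorem commE : lazyWalk (gr A H L hL) * Emat A H = Emat A H * lazyWalk (gr A H L hL) := by
  ext u v
  rw [mul_Emat, Emat_mul]

theorem E_idem : Emat A H * Emat A H = Emat A H := by
  ext u v
  rw [Matrix.mul_apply, Fintype.sum_prod_type]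
  have hA := card_pos_real A
  have h1 : ∀ a : A, ∑ h : H, Emat A H u (a, h) * Emat A H (a, h) v =
      (if u.2 = v.2 then 1 / (Fintype.card A : ℝ) else 0) * (1 / Fintype.card A) := by
    intro a
    rw [Finset.sum_eq_single v.2]
    · simp [Emat]
    · intro b _ hb
      simp [Emat, hb]
    · intro h; exact absurd (Finset.mem_univ _) h
  rw [Finset.sum_congr rfl (fun a _ => h1 a), Finset.sum_const, Finset.card_univ, nsmul_eq_mul]
  unfold Emat
  split_ifs
  · field_simp
  · simp

theorem E_mul_Pi : Emat A H * Pimat A H = Pimat A H := by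
  ext u v
  rw [Matrix.mul_apply, Fintype.sum_prod_type]
  have hA := card_pos_real A
  have h1 : ∀ a : A, ∑ h : H, Emat A H u (a, h) * Pimat A H (a, h) v =
      (1 / (Fintype.card A : ℝ)) * (1 / (Fintype.card (A × H) : ℝ)) := by
    intro a
    rw [Finset.sum_eq_single u.2]
    · simp [Emat, Pimat]
    · intro b _ hb
      have hb' : ¬ (u.2 = b) := fun h => hb h.symm
      simp [Emat, hb']
    · intro h; exact absurd (Finset.mem_univ _) h
  rw [Finset.sum_congr rfl (fun a _ => h1 a), Finset.sum_const, Finset.card_univ, nsmul_eq_mul]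
  unfold Pimat
  field_simp

theorem P_mul_Pi (hD : 0 < Dg A H L) :
    lazyWalk (gr A H L hL) * Pimat A H = Pimat A H := by
  ext u v
  rw [Matrix.mul_apply]
  unfold Pimat
  rw [← Finset.sum_mul, row_sum_one L hL hD, one_mul]

theorem P_mul_E (hD : 0 < Dg A H L) :
    lazyWalk (gr A H L hL) * Emat A H =
      (1 - (L.card : ℝ) * Fintype.card H / (2 * Dg A H L)) • Emat A H +
      ((L.card : ℝ) * Fintype.card H / (2 * Dg A H L)) • Pimat A H := by
  ext u v
  rw [mul_Emat, Matrix.add_apply, Matrix.smul_apply, Matrix.smul_apply]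
  have hA := card_pos_real A
  have hH := card_pos_real H
  unfold Emat Pimat
  rw [Fintype.card_prod]
  push_cast
  by_cases h : u.2 = v.2
  · rw [if_pos h, h, sub_self, fiber_sum_zero L hD]
    have h4 : (Fintype.card A : ℝ) - 1 =
      Dg A H L - (L.card : ℝ) * ((Fintype.card H : ℝ) - 1) := by rw [Dg]; ring
    rw [h4, smul_eq_mul, smul_eq_mul]
    field_simp
    ring
  · have h' : v.2 - u.2 ≠ 0 := fun h' => h (sub_eq_zero.mp h').symm
    rw [if_neg h, fiber_sum_ne L _ h', smul_eq_mul, smul_eq_mul]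
    field_simp
    ring

theorem Ppow_mul_E (hD : 0 < Dg A H L) (t : ℕ) :
    lazyWalk (gr A H L hL) ^ t * Emat A H =
      ((1 - (L.card : ℝ) * Fintype.card H / (2 * Dg A H L)) ^ t) • Emat A H +
      (1 - (1 - (L.card : ℝ) * Fintype.card H / (2 * Dg A H L)) ^ t) • Pimat A H := by
  induction t with
  | zero => simp
  | succ t ih =>
    rw [pow_succ', mul_assoc, ih, mul_add, Matrix.mul_smul, Matrix.mul_smul, P_mul_E L hL hD,
      P_mul_Pi L hL hD, smul_add, smul_smul, smul_smul, add_assoc, ← add_smul, pow_succ]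
    congr 2
    ring

/-- The part of the walk without `A × {0}` steps. -/
noncomputable def Qmat : Matrix (A × H) (A × H) ℝ :=
  lazyWalk (gr A H L hL) - ((Fintype.card A : ℝ) / (2 * Dg A H L)) • Emat A H

theorem Qmat_nonneg (hD : 1 ≤ Dg A H L) (u v : A × H) : 0 ≤ Qmat L hL u v := by
  have hA := card_pos_real A
  have hD' : 0 < Dg A H L := by linarith
  unfold Qmat
  rw [Matrix.sub_apply, Matrix.smul_apply, lazyWalk_gr, smul_eq_mul]
  unfold Emat pstep
  by_cases h : u.2 = v.2
  · rw [if_pos h]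
    have h1 : (Fintype.card A : ℝ) / (2 * Dg A H L) * (1 / (Fintype.card A : ℝ)) =
      1 / (2 * Dg A H L) := by field_simp
    rw [h1]
    split_ifs with h2 h3
    · have : 1 / (2 * Dg A H L) ≤ 1 / 2 := by
        apply one_div_le_one_div_of_le <;> linarith
      linarith
    · simp
    · exfalso
      apply h3
      left
      simp [h]
  · rw [if_neg h, mul_zero, sub_zero]
    split_ifs <;> positivity

theorem Emat_row (u : A × H) : ∑ v, Emat A H u v = 1 := by
  have hA := card_pos_real A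
  rw [Fintype.sum_prod_type]
  have h1 : ∀ a : A, ∑ h : H, Emat A H u (a, h) = 1 / Fintype.card A := by
    intro a
    simp [Emat]
  rw [Finset.sum_congr rfl (fun a _ => h1 a), Finset.sum_const, Finset.card_univ, nsmul_eq_mul]
  field_simp

theorem Qmat_row (hD : 1 ≤ Dg A H L) (u : A × H) :
    ∑ v, |Qmat L hL u v| ≤ 1 - (Fintype.card A : ℝ) / (2 * Dg A H L) := by
  have hD' : 0 < Dg A H L := by linarith
  simp_rw [abs_of_nonneg (Qmat_nonneg L hL hD u _)]
  unfold Qmat
  simp_rw [Matrix.sub_apply, Matrix.smul_apply, smul_eq_mul]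
  rw [Finset.sum_sub_distrib, ← Finset.mul_sum, Emat_row, row_sum_one L hL hD', mul_one]

theorem Qmat_comm : Qmat L hL * Emat A H = Emat A H * Qmat L hL := by
  unfold Qmat
  rw [sub_mul, mul_sub, commE, Matrix.smul_mul, Matrix.mul_smul]

theorem P_mul_oneE : lazyWalk (gr A H L hL) * (1 - Emat A H) = Qmat L hL * (1 - Emat A H) := by
  unfold Qmat
  rw [sub_mul, Matrix.smul_mul, mul_sub (Emat A H), mul_one, E_idem, sub_self, smul_zero,
    sub_zero]

theorem Ppow_mul_oneE (t : ℕ) :
    lazyWalk (gr A H L hL) ^ t * (1 - Emat A H) = Qmat L hL ^ t * (1 - Emat A H) := by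
  induction t with
  | zero => simp
  | succ t ih =>
    have hc : (1 - Emat A H) * Qmat L hL = Qmat L hL * (1 - Emat A H) := by
      rw [sub_mul, mul_sub, Qmat_comm, one_mul, mul_one]
    rw [pow_succ, mul_assoc, P_mul_oneE, ← hc, ← mul_assoc, ih, mul_assoc, hc, ← mul_assoc,
      ← pow_succ]

theorem Qpow_row (hD : 1 ≤ Dg A H L) (hw : 0 ≤ 1 - (Fintype.card A : ℝ) / (2 * Dg A H L))
    (t : ℕ) (u : A × H) :
    ∑ v, |(Qmat L hL ^ t) u v| ≤ (1 - (Fintype.card A : ℝ) / (2 * Dg A H L)) ^ t := by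
  induction t generalizing u with
  | zero => simp [Matrix.one_apply, apply_ite abs]
  | succ t ih =>
    rw [pow_succ' (Qmat L hL), pow_succ']
    exact rowsum_mul _ _ _ _ (pow_nonneg hw t) (Qmat_row L hL hD) ih u

theorem Pimat_row (u : A × H) : ∑ v, |Pimat A H u v| = 1 := by
  unfold Pimat
  have hcard : 0 < Fintype.card (A × H) := Fintype.card_pos_iff.mpr ⟨0⟩
  have : (0 : ℝ) < Fintype.card (A × H) := by exact_mod_cast hcard
  rw [abs_of_pos (by positivity), Finset.sum_const, Finset.card_univ, nsmul_eq_mul]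
  field_simp

theorem Emat_abs_row (u : A × H) : ∑ v, |Emat A H u v| = 1 := by
  have : ∀ v, |Emat A H u v| = Emat A H u v := by
    intro v
    unfold Emat
    apply abs_of_nonneg
    split_ifs <;> positivity
  simp_rw [this]
  exact Emat_row u

/-- Upper bound on the total variation distance. -/
theorem tv_upper (hD : 1 ≤ Dg A H L) (hw : 0 ≤ 1 - (Fintype.card A : ℝ) / (2 * Dg A H L))
    (hr : 0 ≤ 1 - (L.card : ℝ) * Fintype.card H / (2 * Dg A H L)) (t : ℕ) :
    tvDist (gr A H L hL) t ≤ (1 - (Fintype.card A : ℝ) / (2 * Dg A H L)) ^ t +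
      (1 - (L.card : ℝ) * Fintype.card H / (2 * Dg A H L)) ^ t := by
  have hD' : 0 < Dg A H L := by linarith
  rw [tvDist_eq]
  have hne : Nonempty (A × H) := ⟨0⟩
  apply ciSup_le
  intro u
  set w := (Fintype.card A : ℝ) / (2 * Dg A H L) with hwdef
  set r := (L.card : ℝ) * Fintype.card H / (2 * Dg A H L) with hrdef
  have hdec : lazyWalk (gr A H L hL) ^ t - Pimat A H =
      ((1 - r) ^ t) • (Emat A H - Pimat A H) + Qmat L hL ^ t * (1 - Emat A H) := by
    rw [← Ppow_mul_oneE, mul_sub (lazyWalk (gr A H L hL) ^ t), mul_one, Ppow_mul_E L hL hD',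
      ← hrdef, smul_sub, sub_smul, one_smul]
    abel
  have h1 : ∀ v, (lazyWalk (gr A H L hL) ^ t) u v - 1 / (Fintype.card (A × H) : ℝ) =
      ((1 - r) ^ t) * (Emat A H u v - Pimat A H u v) +
        (Qmat L hL ^ t * (1 - Emat A H) : Matrix (A × H) (A × H) ℝ) u v := by
    intro v
    have := congrFun (congrFun hdec u) v
    rw [Matrix.sub_apply, Matrix.add_apply, Matrix.smul_apply, Matrix.sub_apply,
      smul_eq_mul] at this
    rw [← this]
    rfl
  have h2 : ∑ v, |Emat A H u v - Pimat A H u v| ≤ 2 := by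
    calc ∑ v, |Emat A H u v - Pimat A H u v| ≤ ∑ v, (|Emat A H u v| + |Pimat A H u v|) :=
          Finset.sum_le_sum (fun v _ => abs_sub _ _)
      _ = 2 := by rw [Finset.sum_add_distrib, Emat_abs_row, Pimat_row]; norm_num
  have h3 : ∀ i : A × H, ∑ v, |(1 - Emat A H) i v| ≤ 2 := by
    intro i
    calc ∑ v, |(1 - Emat A H) i v| ≤
        ∑ v, (|(1 : Matrix (A × H) (A × H) ℝ) i v| + |Emat A H i v|) :=
          Finset.sum_le_sum (fun v _ => by rw [Matrix.sub_apply]; exact abs_sub _ _)
      _ = 2 := by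
        rw [Finset.sum_add_distrib, Emat_abs_row]
        simp [Matrix.one_apply, apply_ite abs]
        norm_num
  have h4 : ∑ v, |(Qmat L hL ^ t * (1 - Emat A H) : Matrix (A × H) (A × H) ℝ) u v| ≤
      (1 - w) ^ t * 2 :=
    rowsum_mul _ _ _ _ (by norm_num) (Qpow_row L hL hD hw t) h3 u
  have h5 : ∑ v, |(lazyWalk (gr A H L hL) ^ t) u v - 1 / (Fintype.card (A × H) : ℝ)| ≤
      (1 - r) ^ t * 2 + (1 - w) ^ t * 2 := by
    calc ∑ v, |(lazyWalk (gr A H L hL) ^ t) u v - 1 / (Fintype.card (A × H) : ℝ)|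
        = ∑ v, |((1 - r) ^ t) * (Emat A H u v - Pimat A H u v) +
        (Qmat L hL ^ t * (1 - Emat A H) : Matrix (A × H) (A × H) ℝ) u v| := by simp_rw [h1]
      _ ≤ ∑ v, (|((1 - r) ^ t) * (Emat A H u v - Pimat A H u v)| +
        |(Qmat L hL ^ t * (1 - Emat A H) : Matrix (A × H) (A × H) ℝ) u v|) :=
          Finset.sum_le_sum (fun v _ => abs_add_le _ _)
      _ = (1 - r) ^ t * ∑ v, |Emat A H u v - Pimat A H u v| +
        ∑ v, |(Qmat L hL ^ t * (1 - Emat A H) : Matrix (A × H) (A × H) ℝ) u v| := by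
          rw [Finset.sum_add_distrib, Finset.mul_sum]
          simp_rw [abs_mul, abs_of_nonneg (pow_nonneg hr t)]
      _ ≤ _ := by
          have := mul_le_mul_of_nonneg_left h2 (pow_nonneg hr t)
          linarith
  linarith

end

end Pool.Agent.MixCutoff
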