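import Mathlib
import Pool.Agent.MixCutoff.Spectral
import Pool.Agent.MixCutoff.TV
import Pool.Agent.MixCutoff.Lines

/-!
Choice of parameters and quantitative estimates for the counterexample.
-/

namespace Pool.Agent.MixCutoff

open Finset

section real_bounds

/-- Elementary real inequalities for the parameters: `a = |A|`, `l = |L|`, `N = |H|`,
`D` the degree. Here `Q` stands for `q^(n-2)`. -/
theorem real_bounds (q Q m a l N D : ℝ) (hq : 2 ≤ q) (hQ : 1 ≤ Q) (hm : 4 ≤ m)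
    (ha : a = q ^ 2 * Q) (hl : l = q ^ 2 - q + 1) (hN : N = m * Q)
    (hD : D = a + l * (N - 1) - 1) :
    1 ≤ D ∧ l * N ≤ D ∧ 0 ≤ 1 - a / (2 * D) ∧ 0 ≤ 1 - l * N / (2 * D) ∧
    1 - l * N / (2 * D) ≤ 3 / 4 ∧ 1 / (2 * (m + 1)) ≤ a / (2 * D) ∧ a / (2 * D) ≤ 1 / m ∧
    (a - l) / (2 * D) ≤ 1 / m ∧ 0 ≤ 1 - (a - l) / (2 * D) ∧ l * (N - 1) ≤ D := by
  have hq2 : q ≤ q ^ 2 := by nlinarith
  have hl3 : 3 ≤ l := by rw [hl]; nlinarith
  have hlq : q ^ 2 ≤ 2 * l := by rw [hl]; nlinarith [sq_nonneg (q - 1)]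
  have hlq' : l ≤ q ^ 2 - 1 := by rw [hl]; linarith
  have haQ : q ^ 2 ≤ a := by rw [ha]; nlinarith [sq_nonneg q]
  have hDl : l * N ≤ D := by
    have : D - l * N = a - l - 1 := by rw [hD]; ring
    nlinarith
  have hN4 : 4 ≤ N := by rw [hN]; nlinarith
  have hD1 : 1 ≤ D := by nlinarith
  have hD0 : 0 < D := by linarith
  have hmN : m * a ≤ 2 * (l * N) := by
    rw [ha, hN]
    have : 0 ≤ m * Q := by positivity
    nlinarith
  have hmD : m * a ≤ 2 * D := by linarith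
  have hDu : D ≤ (m + 1) * a := by
    have h1 : l * N ≤ q ^ 2 * N := by
      apply mul_le_mul_of_nonneg_right _ (by linarith)
      linarith
    have h2 : q ^ 2 * N = m * a := by rw [hN, ha]; ring
    have h3 : D = a + l * N - l - 1 := by rw [hD]; ring
    rw [h3]; nlinarith
  have ha0 : 0 < a := by nlinarith
  have hwm : a / (2 * D) ≤ 1 / m := by
    rw [div_le_div_iff₀ (by positivity) (by positivity)]
    linarith
  have hm1 : 1 / m ≤ 1 := by
    rw [div_le_one (by linarith)]; linarith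
  refine ⟨hD1, hDl, by linarith, ?_, ?_, ?_, hwm, ?_, ?_, ?_⟩
  · have : l * N / (2 * D) ≤ 1 := by
      rw [div_le_one (by positivity)]; linarith
    linarith
  · have : 1 / 4 ≤ l * N / (2 * D) := by
      rw [div_le_div_iff₀ (by norm_num) (by positivity)]
      have : D ≤ a + l * N := by rw [hD]; nlinarith
      nlinarith
    linarith
  · rw [div_le_div_iff₀ (by positivity) (by positivity)]
    nlinarith
  · refine le_trans ?_ hwm
    apply div_le_div_of_nonneg_right _ (by positivity)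
    linarith
  · have : (a - l) / (2 * D) ≤ a / (2 * D) := by
      apply div_le_div_of_nonneg_right _ (by positivity)
      linarith
    linarith
  · nlinarith

end real_bounds

/-- Parameter `m = 4 (k + 11)`. -/
def mm (k : ℕ) : ℕ := 4 * (k + 11)

/-- Dimension `n = m²`. -/
def nn (k : ℕ) : ℕ := mm k * mm k

/-- A prime `q ≥ 4 n`. -/
noncomputable def qq (k : ℕ) : ℕ := (Nat.exists_infinite_primes (4 * nn k)).choose

theorem qq_prime (k : ℕ) : (qq k).Prime := (Nat.exists_infinite_primes (4 * nn k)).choose_spec.2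

theorem qq_ge (k : ℕ) : 4 * nn k ≤ qq k := (Nat.exists_infinite_primes (4 * nn k)).choose_spec.1

noncomputable instance (k : ℕ) : Fact (qq k).Prime := ⟨qq_prime k⟩

/-- Size of the second factor, `N = m q^(n-2)`. -/
noncomputable def NN (k : ℕ) : ℕ := mm k * qq k ^ (nn k - 2)

theorem NN_pos (k : ℕ) : 0 < NN k :=
  Nat.mul_pos (by unfold mm; omega) (Nat.pow_pos (qq_prime k).pos)

noncomputable instance (k : ℕ) : NeZero (NN k) := ⟨(NN_pos k).ne'⟩

/-- The first factor. -/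
abbrev AA (k : ℕ) : Type := Fin (nn k) → ZMod (qq k)

/-- The second factor. -/
abbrev HH (k : ℕ) : Type := ZMod (NN k)

/-- The generating lines. -/
noncomputable abbrev LL (k : ℕ) : Finset (AA k) := lines (nn k) (ZMod (qq k))

/-- The `k`-th graph. -/
noncomputable def GG (k : ℕ) : SimpleGraph (AA k × HH k) :=
  gr (AA k) (HH k) (LL k) neg_mem_lines

theorem nn_ge (k : ℕ) : 2 ≤ nn k := by
  unfold nn mm; nlinarith

theorem mm_ge (k : ℕ) : 44 ≤ mm k := by unfold mm; omega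

theorem cardA (k : ℕ) : (Fintype.card (AA k) : ℝ) = (qq k : ℝ) ^ 2 * (qq k : ℝ) ^ (nn k - 2) := by
  have h := nn_ge k
  rw [Fintype.card_pi]
  simp only [ZMod.card, Finset.prod_const, Finset.card_univ, Fintype.card_fin]
  push_cast
  rw [← pow_add]
  congr 1
  omega

theorem cardH (k : ℕ) : (Fintype.card (HH k) : ℝ) = (mm k : ℝ) * (qq k : ℝ) ^ (nn k - 2) := by
  rw [ZMod.card, NN]; push_cast; ring

theorem cardL (k : ℕ) : ((LL k).card : ℝ) = (qq k : ℝ) ^ 2 - qq k + 1 := by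
  rw [card_lines (nn_ge k), ZMod.card]

theorem bounds (k : ℕ) :
    1 ≤ Dg (AA k) (HH k) (LL k) ∧
    0 ≤ 1 - (Fintype.card (AA k) : ℝ) / (2 * Dg (AA k) (HH k) (LL k)) ∧
    0 ≤ 1 - ((LL k).card : ℝ) * Fintype.card (HH k) / (2 * Dg (AA k) (HH k) (LL k)) ∧
    1 - ((LL k).card : ℝ) * Fintype.card (HH k) / (2 * Dg (AA k) (HH k) (LL k)) ≤ 3 / 4 ∧
    1 / (2 * ((mm k : ℝ) + 1)) ≤ (Fintype.card (AA k) : ℝ) / (2 * Dg (AA k) (HH k) (LL k)) ∧
    (Fintype.card (AA k) : ℝ) / (2 * Dg (AA k) (HH k) (LL k)) ≤ 1 / (mm k : ℝ) ∧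
    ((Fintype.card (AA k) : ℝ) - (LL k).card) / (2 * Dg (AA k) (HH k) (LL k)) ≤ 1 / (mm k : ℝ) ∧
    0 ≤ 1 - ((Fintype.card (AA k) : ℝ) - (LL k).card) / (2 * Dg (AA k) (HH k) (LL k)) ∧
    ((LL k).card : ℝ) * ((Fintype.card (HH k) : ℝ) - 1) ≤ Dg (AA k) (HH k) (LL k) := by
  have hq : (2 : ℝ) ≤ qq k := by exact_mod_cast (qq_prime k).two_le
  have hQ : (1 : ℝ) ≤ (qq k : ℝ) ^ (nn k - 2) := one_le_pow₀ (by linarith)
  have hm : (4 : ℝ) ≤ mm k := by
    have := mm_ge k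
    have h2 : (44 : ℝ) ≤ mm k := by exact_mod_cast this
    linarith
  obtain ⟨h1, _, h3, h4, h5, h6, h7, h8, h9, h10⟩ := real_bounds (qq k) ((qq k : ℝ) ^ (nn k - 2))
    (mm k) (Fintype.card (AA k)) ((LL k).card) (Fintype.card (HH k))
    (Dg (AA k) (HH k) (LL k)) hq hQ hm (cardA k) (cardL k) (cardH k) rfl
  exact ⟨h1, h3, h4, h5, h6, h7, h8, h9, h10⟩

/-- All eigenvalues other than `1` are at most `3/4`. -/
theorem lambdaTwo_le (k : ℕ) : lambdaTwo (GG k) ≤ 3 / 4 := by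
  obtain ⟨h1, h3, h4, h5, h6, h7, h8, h9, h10⟩ := bounds k
  apply Real.sSup_le _ (by norm_num)
  rintro l ⟨hl, f, hf, hfl⟩
  have hD : 0 < Dg (AA k) (HH k) (LL k) := by linarith
  have hm : (44 : ℝ) ≤ mm k := by exact_mod_cast mm_ge k
  have hn : (0 : ℝ) ≤ nn k := Nat.cast_nonneg _
  have hq : (4 : ℝ) * nn k ≤ qq k := by exact_mod_cast qq_ge k
  have hq2 : (2 : ℝ) ≤ qq k := by exact_mod_cast (qq_prime k).two_le
  have hb := eigen_bound (H := HH k) (LL k) neg_mem_lines ((qq k : ℝ) * nn k) (by positivity) (by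
    intro α hα
    have := char_lines_bound (nn_ge k) α hα
    rwa [ZMod.card] at this) hD f hf l hl hfl
  rcases hb with hb | hb
  · have : 1 / (mm k : ℝ) ≤ 1 / 4 := by
      apply one_div_le_one_div_of_le <;> linarith
    linarith
  · refine hb.trans ?_
    have hN1 : (0 : ℝ) ≤ (Fintype.card (HH k) : ℝ) - 1 := by
      have := card_pos_real (HH k); linarith
    have h11 : (qq k : ℝ) * nn k * ((Fintype.card (HH k) : ℝ) - 1) /
        (2 * Dg (AA k) (HH k) (LL k)) ≤ 1 / 4 := by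
      rw [div_le_div_iff₀ (by positivity) (by norm_num)]
      have h12 : (qq k : ℝ) * nn k * 2 ≤ (LL k).card := by
        rw [cardL]
        nlinarith [sq_nonneg ((qq k : ℝ) - 1)]
      nlinarith
    linarith

theorem trel_pos (k : ℕ) : 0 < trel (GG k) := by
  have := lambdaTwo_le k
  unfold trel
  apply div_pos one_pos
  linarith

theorem trel_le (k : ℕ) : trel (GG k) ≤ 4 := by
  have := lambdaTwo_le k
  unfold trel
  rw [div_le_iff₀ (by linarith)]
  linarith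

/-- Lower bound on the distance for `t ≤ m / 2`. -/
theorem dist_lower (k t : ℕ) (ht : 2 * t ≤ mm k) :
    1 - (t : ℝ) / mm k - 1 / 4 ≤ tvDist (GG k) t := by
  obtain ⟨h1, h3, h4, h5, h6, h7, h8, h9, h10⟩ := bounds k
  have hD : 0 < Dg (AA k) (HH k) (LL k) := by linarith
  have hlow := tv_lower (H := HH k) (LL k) neg_mem_lines zero_mem_lines hD h9 t
  refine le_trans ?_ hlow
  have hm : (44 : ℝ) ≤ mm k := by exact_mod_cast mm_ge k
  have hb : 1 - (t : ℝ) / mm k ≤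
      (1 - ((Fintype.card (AA k) : ℝ) - (LL k).card) / (2 * Dg (AA k) (HH k) (LL k))) ^ t := by
    have hB := one_add_mul_le_pow (a := -(((Fintype.card (AA k) : ℝ) - (LL k).card) /
      (2 * Dg (AA k) (HH k) (LL k)))) (by linarith) t
    rw [← sub_eq_add_neg] at hB
    refine le_trans ?_ hB
    have : (t : ℝ) * (((Fintype.card (AA k) : ℝ) - (LL k).card) /
      (2 * Dg (AA k) (HH k) (LL k))) ≤ t * (1 / mm k) :=
      mul_le_mul_of_nonneg_left h8 (Nat.cast_nonneg t)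
    rw [mul_one_div] at this
    linarith
  have hq2 : (2 : ℝ) ≤ qq k := by exact_mod_cast (qq_prime k).two_le
  have hq4 : (4 : ℝ) ≤ qq k := by
    have h := qq_ge k
    have h2 := nn_ge k
    have : 4 ≤ qq k := by omega
    exact_mod_cast this
  have hc : ((LL k).card : ℝ) ^ t / Fintype.card (AA k) ≤ 1 / 4 := by
    have e1 : ((LL k).card : ℝ) ≤ (qq k : ℝ) ^ 2 := by rw [cardL]; linarith
    have e2 : ((LL k).card : ℝ) ^ t ≤ (qq k : ℝ) ^ (2 * t) := by
      rw [pow_mul]; exact pow_le_pow_left₀ (Nat.cast_nonneg _) e1 t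
    have e3 : (Fintype.card (AA k) : ℝ) = (qq k : ℝ) ^ (nn k) := by
      rw [cardA, ← pow_add]
      congr 1
      have := nn_ge k
      omega
    have e4 : 2 * t + 1 ≤ nn k := by
      have := mm_ge k
      unfold nn
      nlinarith
    have e5 : (qq k : ℝ) ^ (2 * t + 1) ≤ (qq k : ℝ) ^ (nn k) :=
      pow_le_pow_right₀ (by linarith) e4
    rw [e3, div_le_div_iff₀ (by positivity) (by norm_num)]
    have e6 : (qq k : ℝ) ^ (2 * t + 1) = (qq k : ℝ) ^ (2 * t) * qq k := pow_succ _ _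
    have e7 : (0 : ℝ) ≤ (qq k : ℝ) ^ (2 * t) := by positivity
    nlinarith
  linarith

/-- Upper bound on the distance. -/
theorem dist_upper (k t : ℕ) :
    tvDist (GG k) t ≤ 1 / (1 + (t : ℝ) / (2 * ((mm k : ℝ) + 1))) + (3 / 4 : ℝ) ^ t := by
  obtain ⟨h1, h3, h4, h5, h6, h7, h8, h9, h10⟩ := bounds k
  have hup := tv_upper (H := HH k) (LL k) neg_mem_lines h1 h3 h4 t
  refine hup.trans ?_
  apply add_le_add
  · set w := (Fintype.card (AA k) : ℝ) / (2 * Dg (AA k) (HH k) (LL k)) with hw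
    have hw0 : 0 ≤ w := by
      refine le_trans ?_ h6
      positivity
    have e1 : (1 - w) ^ t * (1 + w) ^ t ≤ 1 := by
      rw [← mul_pow]
      apply pow_le_one₀
      · nlinarith
      · nlinarith
    have e2 : 1 + (t : ℝ) * w ≤ (1 + w) ^ t := one_add_mul_le_pow (by linarith) t
    have e3 : (t : ℝ) / (2 * ((mm k : ℝ) + 1)) ≤ t * w := by
      have := mul_le_mul_of_nonneg_left h6 (Nat.cast_nonneg t : (0 : ℝ) ≤ t)
      rw [mul_one_div] at this
      exact this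
    have e4 : 0 < 1 + (t : ℝ) / (2 * ((mm k : ℝ) + 1)) := by positivity
    rw [le_div_iff₀ e4]
    refine le_trans ?_ e1
    apply mul_le_mul_of_nonneg_left _ (pow_nonneg h3 t)
    linarith
  · exact pow_le_pow_left₀ h4 h5 t

theorem exists_small (k : ℕ) (ε : ℝ) (hε : 0 < ε) : ∃ t, tvDist (GG k) t ≤ ε := by
  obtain ⟨h1, h3, h4, h5, h6, h7, h8, h9, h10⟩ := bounds k
  obtain ⟨t1, ht1⟩ := exists_pow_lt_of_lt_one (x := ε / 2) (y := (3 / 4 : ℝ)) (by linarith)
    (by norm_num)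
  obtain ⟨t2, ht2⟩ := exists_pow_lt_of_lt_one (x := ε / 2)
    (y := 1 - (Fintype.card (AA k) : ℝ) / (2 * Dg (AA k) (HH k) (LL k))) (by linarith) (by
      have : 0 < 1 / (2 * ((mm k : ℝ) + 1)) := by positivity
      linarith)
  refine ⟨max t1 t2, ?_⟩
  have hup := tv_upper (H := HH k) (LL k) neg_mem_lines h1 h3 h4 (max t1 t2)
  refine hup.trans ?_
  have hm1 : 1 - (Fintype.card (AA k) : ℝ) / (2 * Dg (AA k) (HH k) (LL k)) ≤ 1 := by
    have : 0 < 1 / (2 * ((mm k : ℝ) + 1)) := by positivity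
    linarith
  have e1 : (1 - (Fintype.card (AA k) : ℝ) / (2 * Dg (AA k) (HH k) (LL k))) ^ (max t1 t2) ≤
      (1 - (Fintype.card (AA k) : ℝ) / (2 * Dg (AA k) (HH k) (LL k))) ^ t2 :=
    pow_le_pow_of_le_one h3 hm1 (le_max_right _ _)
  have e2 : (1 - ((LL k).card : ℝ) * Fintype.card (HH k) /
      (2 * Dg (AA k) (HH k) (LL k))) ^ (max t1 t2) ≤ (3 / 4) ^ t1 := by
    refine (pow_le_pow_of_le_one h4 (by linarith) (le_max_left _ _)).trans ?_
    exact pow_le_pow_left₀ h4 h5 t1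
  linarith

theorem tmix_gt (k : ℕ) (ε : ℝ) (hε : 0 < ε) (s : ℕ) (h : ∀ t ≤ s, ε < tvDist (GG k) t) :
    s < tmix (GG k) ε := by
  unfold tmix
  have hne : {t : ℕ | tvDist (GG k) t ≤ ε}.Nonempty := exists_small k ε hε
  by_contra hcon
  have := h _ (not_lt.mp hcon)
  have h2 : tvDist (GG k) (sInf {t : ℕ | tvDist (GG k) t ≤ ε}) ≤ ε := Nat.sInf_mem hne
  linarith

theorem tmix_le (k : ℕ) (ε : ℝ) (t : ℕ) (h : tvDist (GG k) t ≤ ε) : tmix (GG k) ε ≤ t :=
  Nat.sInf_le h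

end Pool.Agent.MixCutoff
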